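import Pool.Agent.H923R2.FZ.All
import Pool.Agent.H308R2.ZS.All
import Pool.Agent.H308R2.ZS.Final
import Pool.Agent.H308R2.CF.All
import Pool.Agent.H308R2.CF.TGTR
import Pool.Agent.H308R2.CF.TGMOM
import Pool.Agent.H308R2.CF.TGST
import Pool.Agent.H308R2.CF.TGRED

/-!
# All reduced free powers of the Jiang–Su algebra and of `C([0,1])` are isomorphic

Idea.  Let `C = (C([0,1]), ∫)`, `Z` the Jiang–Su algebra with its trace, `W = C^{*ℕ}`.

1. Absorption: `D * C * C ≅ D * C * C * C * ⋯` for every tracial `D` containing a free copy of `C`: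
   a flow (the derivation `u ↦ i (u h - h u)` with `h = ∑ c(β) π(β) k π(β)⁻¹`, `‖h‖ ≤ 2 ‖c‖₂`)
   moves one copy of `C` by a small amount in norm so that another copy is almost contained in the
   algebra generated by the rest; a limit absorbs it.
2. `Z * W ≅ W`: `Z` is locally generated by Rørdam–Winter systems `(φ, v)` of `Z_{n,n+1}`.
   A copy of `Z` in `Z * W` can be conjugated almost into `W * C` by a unitary which is close to `1`
   on what is already fixed (stable rank one arguments by a free Haar unitary, comparison of positive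
   elements, uniqueness of the law), and an intertwining argument gives the isomorphism.
3. `Z^{*k}` with `k ≥ 2` contains free copies of `C` and absorbs `W`.
-/

set_option autoImplicit false

open scoped ComplexConjugate ComplexOrder Kronecker Matrix.Norms.L2Operator

noncomputable section

namespace Pool.Agent.Results.MP_118406_an.FreePowers

/-- The dimension drop algebra `Z_{p,q}`: continuous functions `f : [0,1] → M_p ⊗ M_q` with
`f(0) ∈ M_p ⊗ 1` and `f(1) ∈ 1 ⊗ M_q`. -/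
def dimDrop (p q : ℕ) :
    StarSubalgebra ℂ C(unitInterval, Matrix (Fin p × Fin q) (Fin p × Fin q) ℂ) where
  carrier := {f | (∃ a : Matrix (Fin p) (Fin p) ℂ, f 0 = a ⊗ₖ (1 : Matrix (Fin q) (Fin q) ℂ)) ∧
    ∃ b : Matrix (Fin q) (Fin q) ℂ, f 1 = (1 : Matrix (Fin p) (Fin p) ℂ) ⊗ₖ b}
  mul_mem' := (Pool.Agent.H923R2.FZ.ddrop p q).mul_mem'
  add_mem' := (Pool.Agent.H923R2.FZ.ddrop p q).add_mem'
  algebraMap_mem' := (Pool.Agent.H923R2.FZ.ddrop p q).algebraMap_mem'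
  star_mem' := (Pool.Agent.H923R2.FZ.ddrop p q).star_mem'

/-- `t` is a tracial state. -/
structure IsTracialState {A : Type} [CStarAlgebra A] (t : A →ₗ[ℂ] ℂ) : Prop where
  one : t 1 = 1
  comm : ∀ x y, t (x * y) = t (y * x)
  pos : ∀ x, 0 ≤ t (star x * x)

/-- `Z` is the Jiang–Su algebra: a simple unital C*-algebra with a unique tracial state, which is
the closure of an increasing union of subalgebras isomorphic to prime dimension drop algebras
`Z_{n,n+1}` with `n → ∞`. -/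
structure IsJiangSu (Z : Type) [CStarAlgebra Z] : Prop where
  nontrivial : Nontrivial Z
  simple : ∀ I : TwoSidedIdeal Z, IsClosed (I : Set Z) → I = ⊥ ∨ I = ⊤
  trace : ∃! t : Z →ₗ[ℂ] ℂ, IsTracialState t
  lim : ∃ (n : ℕ → ℕ) (D : ℕ → StarSubalgebra ℂ Z), Filter.Tendsto n Filter.atTop Filter.atTop ∧
    Monotone D ∧ (∀ k, Nonempty (D k ≃⋆ₐ[ℂ] dimDrop (n k + 1) (n k + 2))) ∧
    (⨆ k, D k).topologicalClosure = ⊤

/-- `(A, φ)` with the embeddings `e j : D → A`, `j ∈ κ`, is the reduced free power (Avitzour,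
Voiculescu) `(D, t)^{*κ}`: `φ` is a state which restricts to `t` on each copy, the copies are free
with respect to `φ` (alternating products of centred elements have expectation zero), they generate
`A` as a C*-algebra, and the GNS representation of `φ` is faithful. -/
structure IsReducedFreePower {κ D : Type} [CStarAlgebra D] (t : D → ℂ) {A : Type} [CStarAlgebra A]
    (φ : A →ₗ[ℂ] ℂ) (e : κ → D →⋆ₐ[ℂ] A) : Prop where
  one : φ 1 = 1
  pos : ∀ x, 0 ≤ φ (star x * x)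
  marginal : ∀ j d, φ (e j d) = t d
  free : ∀ w : List (κ × D), w ≠ [] → w.IsChain (fun a b => a.1 ≠ b.1) →
    (∀ z ∈ w, t z.2 = 0) → φ ((w.map fun z => e z.1 z.2).prod) = 0
  generating : (⨆ j, (e j).range).topologicalClosure = (⊤ : StarSubalgebra ℂ A)
  gns_faithful : ∀ a, (∀ x, φ (star (a * x) * (a * x)) = 0) → a = 0

/-- The Lebesgue trace `f ↦ ∫₀¹ f` on `C([0,1])`. -/
def leb (f : C(unitInterval, ℂ)) : ℂ := ∫ x : unitInterval, f x

/-- `A` is a member of the family `𝓕`: the C*-algebra of a reduced free power `(Z, τ)^{*k}` or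
`(C([0,1]), leb)^{*l}` with at least two factors. -/
def IsMember {Z : Type} [CStarAlgebra Z] (τ : Z →ₗ[ℂ] ℂ) (A : Type) [CStarAlgebra A] : Prop :=
  (∃ (k : ℕ) (φ : A →ₗ[ℂ] ℂ) (e : Fin k → Z →⋆ₐ[ℂ] A), 2 ≤ k ∧ IsReducedFreePower τ φ e) ∨
  ∃ (l : ℕ) (φ : A →ₗ[ℂ] ℂ) (e : Fin l → C(unitInterval, ℂ) →⋆ₐ[ℂ] A),
    2 ≤ l ∧ IsReducedFreePower leb φ e

open Pool.Agent.H923R2

theorem toTS {A : Type} [CStarAlgebra A] {t : A →ₗ[ℂ] ℂ} (h : IsTracialState t) : FZ.IsTS t :=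
  ⟨h.one, h.comm, h.pos⟩

theorem ofTS {A : Type} [CStarAlgebra A] {t : A →ₗ[ℂ] ℂ} (h : FZ.IsTS t) : IsTracialState t :=
  ⟨h.1, h.2.1, h.2.2⟩

theorem toJS {Z : Type} [CStarAlgebra Z] (h : IsJiangSu Z) : FZ.IsJS Z := by
  obtain ⟨t, ht, hu⟩ := h.trace
  exact ⟨h.nontrivial, h.simple, ⟨t, toTS ht, fun s hs => hu s (ofTS hs)⟩, h.lim⟩

theorem gen_eq {κ D A : Type} [CStarAlgebra D] [CStarAlgebra A] (e : κ → D →⋆ₐ[ℂ] A) :
    (⨆ j, (e j).range) = StarAlgebra.adjoin ℂ (⋃ j, Set.range (e j)) := by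
  apply le_antisymm
  · refine iSup_le fun j => ?_
    rintro x ⟨y, rfl⟩
    exact StarAlgebra.subset_adjoin ℂ _ (Set.mem_iUnion.2 ⟨j, y, rfl⟩)
  · refine StarAlgebra.adjoin_le ?_
    refine Set.iUnion_subset fun j => ?_
    rintro x ⟨y, rfl⟩
    exact (le_iSup (fun j => (e j).range) j) ⟨y, rfl⟩

theorem toRFP {κ D A : Type} [CStarAlgebra D] [CStarAlgebra A] {t : D → ℂ} {φ : A →ₗ[ℂ] ℂ}
    {e : κ → D →⋆ₐ[ℂ] A} (h : IsReducedFreePower t φ e) :
    FZ.IsRFP (J := κ) (fun _ => D) (fun _ => t) φ e where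
  one := h.one
  nonneg := h.pos
  tr := h.marginal
  free := by
    intro w hw hc hz
    have := h.free (w.map fun z => (z.1, z.2)) (by simpa using hw)
      (by rw [List.isChain_map]; exact hc)
      (by
        intro z hz'
        obtain ⟨y, hy, rfl⟩ := List.mem_map.1 hz'
        exact hz y hy)
    rwa [List.map_map] at this
  gen := by rw [← gen_eq]; exact h.generating
  gns := h.gns_faithful

theorem ofRFP {κ D A : Type} [CStarAlgebra D] [CStarAlgebra A] {t : D → ℂ} {φ : A →ₗ[ℂ] ℂ}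
    {e : κ → D →⋆ₐ[ℂ] A} (h : FZ.IsRFP (J := κ) (fun _ => D) (fun _ => t) φ e) :
    IsReducedFreePower t φ e where
  one := h.one
  pos := h.nonneg
  marginal := h.tr
  free := by
    intro w hw hc hz
    have := h.free (w.map fun z => (⟨z.1, z.2⟩ : Σ _ : κ, D)) (by simpa using hw)
      (by rw [List.isChain_map]; exact hc)
      (by
        intro z hz'
        obtain ⟨y, hy, rfl⟩ := List.mem_map.1 hz'
        exact hz y hy)
    rwa [List.map_map] at this
  generating := by rw [gen_eq]; exact h.gen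
  gns_faithful := h.gns

theorem toInF {Z : Type} [CStarAlgebra Z] {τ : Z →ₗ[ℂ] ℂ} (hτ : IsTracialState τ) {A : Type}
    [CStarAlgebra A] (h : IsMember τ A) : FZ.InF Z A := by
  rcases h with ⟨k, φ, e, hk, h⟩ | ⟨l, φ, e, hl, h⟩
  · exact Or.inl ⟨k, τ, φ, e, hk, toTS hτ, toRFP h⟩
  · exact Or.inr ⟨l, φ, e, hl, toRFP h⟩

theorem final : FZ.S_FINAL :=
  Pool.Agent.H308R2.ZS.t_FINAL FZ.All.mainz FZ.All.ex (FZ.T_GNSF.t_GNSF FZ.T_TRC.t_TRC)
    FZ.T_GNSB.t_GNSB FZ.T_LEBF.t_LEBF Pool.Agent.H308R2.ZS.all_JFT Pool.Agent.H308R2.ZS.all_JSTR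
    Pool.Agent.H308R2.ZS.all_LEB

theorem toRedFree {κ A : Type} [CStarAlgebra A] {φ : A →ₗ[ℂ] ℂ}
    {σ : κ → C(unitInterval, ℂ) →⋆ₐ[ℂ] A} (h : IsReducedFreePower leb φ σ) :
    Pool.Agent.H308R2.CF.RedFree φ σ where
  law := ⟨h.one, h.marginal, fun l hl hc hz => h.free l hl ((List.isChain_map _).1 hc) hz⟩
  pos := h.pos
  gen := h.generating
  gns := fun a ha => h.gns_faithful a fun x => by
    have := ha x
    rwa [star_mul, mul_assoc, ← mul_assoc (star a), ← mul_assoc (star x)]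

theorem ofRedFree {κ A : Type} [CStarAlgebra A] {φ : A →ₗ[ℂ] ℂ}
    {σ : κ → C(unitInterval, ℂ) →⋆ₐ[ℂ] A} (h : Pool.Agent.H308R2.CF.RedFree φ σ) :
    IsReducedFreePower leb φ σ where
  one := h.law.one
  pos := h.pos
  marginal := h.law.mar
  free := fun l hl hc hz => h.law.free l hl ((List.isChain_map _).2 hc) hz
  generating := h.gen
  gns_faithful := fun a ha => h.gns a fun x => by
    have := ha x
    rwa [star_mul, mul_assoc, ← mul_assoc (star a), ← mul_assoc (star x)] at this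

/-- (1) All reduced free powers `(C([0,1]), leb)^{*l}` exist, and those with at least two factors
are mutually *-isomorphic, by isomorphisms preserving the free product states.
(2) Let `Z` be the Jiang–Su algebra with its tracial state `τ`. All the reduced free powers
`(Z, τ)^{*k}` exist, and any two members of the family `𝓕` of the reduced free powers
`(Z, τ)^{*k}` and `(C([0,1]), leb)^{*l}` with at least two factors are *-isomorphic. -/
theorem result :
    ((∀ l : ℕ, ∃ (A : Type) (_ : CStarAlgebra A) (φ : A →ₗ[ℂ] ℂ)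
        (e : Fin l → C(unitInterval, ℂ) →⋆ₐ[ℂ] A), IsReducedFreePower leb φ e) ∧
      ∀ (l m : ℕ), 2 ≤ l → 2 ≤ m → ∀ (A B : Type) [CStarAlgebra A] [CStarAlgebra B]
        (φ : A →ₗ[ℂ] ℂ) (ψ : B →ₗ[ℂ] ℂ) (e : Fin l → C(unitInterval, ℂ) →⋆ₐ[ℂ] A)
        (e' : Fin m → C(unitInterval, ℂ) →⋆ₐ[ℂ] B),
        IsReducedFreePower leb φ e → IsReducedFreePower leb ψ e' →
        ∃ Φ : A ≃⋆ₐ[ℂ] B, ∀ a, ψ (Φ a) = φ a) ∧
    ∀ (Z : Type) [CStarAlgebra Z], IsJiangSu Z → ∀ τ : Z →ₗ[ℂ] ℂ, IsTracialState τ →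
      (∀ k : ℕ, ∃ (A : Type) (_ : CStarAlgebra A) (φ : A →ₗ[ℂ] ℂ) (e : Fin k → Z →⋆ₐ[ℂ] A),
        IsReducedFreePower τ φ e) ∧
      ∀ (A B : Type) [CStarAlgebra A] [CStarAlgebra B], IsMember τ A → IsMember τ B →
        Nonempty (A ≃⋆ₐ[ℂ] B) := by
  refine ⟨⟨?_, ?_⟩, ?_⟩
  · intro l
    obtain ⟨A, hA, φ, σ, h⟩ := Pool.Agent.H308R2.CF.exi_all (Fin l)
    exact ⟨A, hA, φ.toFun, σ, ofRedFree (Pool.Agent.H308R2.CF.t_GRED _ _ _ _ h)⟩
  · intro l m hl hm A B _ _ φ ψ σ τ hσ hτ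
    obtain ⟨φ', rfl, h1⟩ := Pool.Agent.H308R2.CF.t_GTR Pool.Agent.H308R2.CF.t_GST
      Pool.Agent.H308R2.CF.t_GMOM Pool.Agent.H308R2.CF.exi_all _ _ _ _ (toRedFree hσ)
    obtain ⟨ψ', rfl, h2⟩ := Pool.Agent.H308R2.CF.t_GTR Pool.Agent.H308R2.CF.t_GST
      Pool.Agent.H308R2.CF.t_GMOM Pool.Agent.H308R2.CF.exi_all _ _ _ _ (toRedFree hτ)
    exact Pool.Agent.H308R2.CF.main_all l m hl hm A B φ' ψ' σ τ h1 h2
  · intro Z _ hZ τ hτ
    obtain ⟨h1, -, h3⟩ := final Z (toJS hZ)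
    refine ⟨fun k => ?_, fun A B _ _ hA hB => h3 A B (toInF hτ hA) (toInF hτ hB)⟩
    obtain ⟨A, iA, φ, e, h⟩ := h1 k τ (toTS hτ)
    exact ⟨A, iA, φ, e, ofRFP h⟩

end Pool.Agent.Results.MP_118406_an.FreePowers
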